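import Pool.Agent.Helper73.BL.All

/-!
# The Barnes multiple zeta function for almost all weights of large dimension

For `d ≥ 4k + 1`, all `a > 0` and almost every `v ∈ ℝ^d` the following holds for all positive weights
`w`, in any number `r`, which span the same `ℚ`-space as `v` (so that the dimension is `d`): the bound
`t^ε` of Q1 holds in the mean of order `2k`, that is, `∫_2^T |ζ_r(σ + it, a, w)|^(2k) dt = O(T^(1+ε))`
uniformly on the whole range `r - d/2 ≤ σ ≤ σ₁` of Q1, and `ζ_r(σ + it, a, w) = O(t^(1/(2k) + ε))`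
uniformly on it. So all moments of order at most `2 ⌊(d - 1)/4⌋` are as predicted by Q1, and the
pointwise exponent tends to `0` like `2/d` as the dimension grows.

Proof idea: the `2k`-th moment over the weights of a partial sum of length `N ≤ t^(1/d - ε)` has
square root cancellation. Products of `2k` terms are averaged over the weights with a Gaussian weight
of width `t^(-1/2+ε)`; only weights contribute for which the gradient of the phase is at most
`t^(-1/2+2ε) ≤ N^(-d/2)`. The tuples are counted by the rank and the maximal minor of the matrix of the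
exponents. A Borel-Cantelli argument and convexity (with the bound `t^(1/2+ε)` on the line `r - d + κ`; for the
moments in the form of a maximum principle for the dual pairing) give the result.
-/

set_option autoImplicit false

open Filter Topology MeasureTheory

namespace Pool.Agent.Results.MP_fcb754_nt.LargeDimension

/-- The Dirichlet series `∑ (a + m₁ w₁ + ⋯ + m_r w_r)^{-s}` over `m ∈ ℕ^r` (with `0 ∈ ℕ`). -/
noncomputable def barnesSeries (r : ℕ) (a : ℝ) (w : Fin r → ℝ) (s : ℂ) : ℂ :=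
  ∑' m : Fin r → ℕ, ((a + ∑ i, (m i : ℝ) * w i : ℝ) : ℂ) ^ (-s)

/-- `Z` is the Barnes multiple zeta function `ζ_r(·, a, w)`: it is holomorphic on the complex plane
except for possible simple poles at `1, …, r`, and for `Re s > r` it is given by the (summable)
Dirichlet series. -/
structure IsBarnesZeta (r : ℕ) (a : ℝ) (w : Fin r → ℝ) (Z : ℂ → ℂ) : Prop where
  holomorphic : ∀ s : ℂ, (∀ j : ℕ, 1 ≤ j → j ≤ r → s ≠ j) → DifferentiableAt ℂ Z s
  simple_pole : ∀ j : ℕ, 1 ≤ j → j ≤ r →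
    ∃ c : ℂ, Tendsto (fun s : ℂ => (s - j) * Z s) (𝓝[≠] (j : ℂ)) (𝓝 c)
  summable : ∀ s : ℂ, (r : ℝ) < s.re →
    Summable fun m : Fin r → ℕ => ((a + ∑ i, (m i : ℝ) * w i : ℝ) : ℂ) ^ (-s)
  series : ∀ s : ℂ, (r : ℝ) < s.re → Z s = barnesSeries r a w s

/-- The dimension `d` of the `ℚ`-vector space spanned by the weights. -/
noncomputable def weightDim (r : ℕ) (w : Fin r → ℝ) : ℕ :=
  Module.finrank ℚ (Submodule.span ℚ (Set.range w))

/-- The bound of Q1 with `t^(η + ε)` in place of `t^ε`: for all `ε > 0` and `σ₁` there is `C` with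
`|ζ_r(σ + it, a, w)| ≤ C t^(η + ε)` for `r - d/2 ≤ σ ≤ σ₁` and `t ≥ 2`. -/
def StripBound (r : ℕ) (a : ℝ) (w : Fin r → ℝ) (η : ℝ) : Prop :=
  ∀ Z : ℂ → ℂ, IsBarnesZeta r a w Z → ∀ ε : ℝ, 0 < ε → ∀ σ₁ : ℝ, ∃ C : ℝ, ∀ σ t : ℝ,
    (r : ℝ) - (weightDim r w : ℝ) / 2 ≤ σ → σ ≤ σ₁ → 2 ≤ t →
      ‖Z (σ + t * Complex.I)‖ ≤ C * t ^ (η + ε)

/-- The bound of Q1 in the mean of order `2k`, on the whole range of Q1: for all `ε > 0` and `σ₁` there
is `C` with `∫_2^T |ζ_r(σ + it, a, w)|^(2k) dt ≤ C T^(1 + ε)` for `r - d/2 ≤ σ ≤ σ₁` and `T ≥ 2`. -/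
def MomentBound (r : ℕ) (a : ℝ) (w : Fin r → ℝ) (k : ℕ) : Prop :=
  ∀ Z : ℂ → ℂ, IsBarnesZeta r a w Z → ∀ ε : ℝ, 0 < ε → ∀ σ₁ : ℝ, ∃ C : ℝ, ∀ σ T : ℝ,
    (r : ℝ) - (weightDim r w : ℝ) / 2 ≤ σ → σ ≤ σ₁ → 2 ≤ T →
      ∫ t in (2 : ℝ)..T, ‖Z (σ + t * Complex.I)‖ ^ (2 * k) ≤ C * T ^ (1 + ε)

theorem exists_zeta (r : ℕ) (a : ℝ) (w : Fin r → ℝ) (ha : 0 < a) (hw : ∀ i, 0 < w i) :
    ∃ Z : ℂ → ℂ, IsBarnesZeta r a w Z := by
  obtain ⟨c, hc⟩ := Pool.Agent.H131R5.BZ.exists_taylor a hw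
  refine ⟨Pool.Agent.H131R5.BZ.FF a w c, ?_, ?_, ?_, ?_⟩
  · exact fun s hs => Pool.Agent.H131R5.BZ.FF_diff ha hw hc hs
  · exact fun j h1 h2 => Pool.Agent.Y930.Bz.FF_pole ha hw hc j h1 h2
  · exact fun s hs => (Pool.Agent.H131R5.BZ.FF_series ha hw hc hs).summable
  · exact fun s hs => (Pool.Agent.H131R5.BZ.FF_series ha hw hc hs).tsum_eq.symm

theorem zeta_eq {r : ℕ} {a : ℝ} {w : Fin r → ℝ} {c : ℕ → ℂ} (ha : 0 < a) (hw : ∀ i, 0 < w i)
    (hc : Pool.Agent.Y930.Bz.Tay a w c) {Z : ℂ → ℂ} (hZ : IsBarnesZeta r a w Z) (σ : ℝ) {t : ℝ}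
    (ht : 0 < t) : Z ((σ : ℂ) + t * Complex.I) =
      Pool.Agent.H131R5.BZ.FF a w c ((σ : ℂ) + t * Complex.I) := by
  have hE := Pool.Agent.Y930.Bz.eq_FF ha hw hc (fun s hs => hZ.holomorphic s hs)
    (fun s hs => hZ.series s hs)
  have hm : ((σ : ℂ) + t * Complex.I) ∈ Pool.Agent.Y930.Bz.Om r := by
    intro k _ _ h
    have := congrArg Complex.im h
    simp at this
    linarith
  exact hE _ hm

theorem weightDim_eq {d : ℕ} {v : Fin d → ℝ} (hv : LinearIndependent ℚ v) {r : ℕ} {w : Fin r → ℝ}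
    (hspan : Submodule.span ℚ (Set.range w) = Submodule.span ℚ (Set.range v)) :
    weightDim r w = d := by
  unfold weightDim
  rw [hspan, finrank_span_eq_card hv]
  simp

/-- (1) The Barnes multiple zeta function exists (as defined above) for all `r`, `a > 0` and positive
weights `w`. (2) Let `k ≥ 1`, `d ≥ 4k + 1` and `a > 0`. For almost every `v ∈ ℝ^d` all positive
weights `w`, in any number `r`, which span the same `ℚ`-space as `v` have dimension `d`, and for them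
the bound of Q1 holds in the mean of order `2k`, and pointwise with the exponent `1/(2k) + ε`. (3) In
particular, for `r ≥ 4k + 1` this holds for almost all positive `w ∈ ℝ^r`, with `d = r`. -/
theorem result :
    (∀ (r : ℕ) (a : ℝ) (w : Fin r → ℝ), 0 < a → (∀ i, 0 < w i) →
      ∃ Z : ℂ → ℂ, IsBarnesZeta r a w Z) ∧
    (∀ (k d : ℕ) (a : ℝ), 1 ≤ k → 4 * k + 1 ≤ d → 0 < a → ∀ᵐ v : Fin d → ℝ,
      ∀ (r : ℕ) (w : Fin r → ℝ), (∀ i, 0 < w i) →
        Submodule.span ℚ (Set.range w) = Submodule.span ℚ (Set.range v) →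
        weightDim r w = d ∧ MomentBound r a w k ∧ StripBound r a w (1 / (2 * (k : ℝ)))) ∧
    (∀ (k r : ℕ) (a : ℝ), 1 ≤ k → 4 * k + 1 ≤ r → 0 < a → ∀ᵐ w : Fin r → ℝ, (∀ i, 0 < w i) →
      weightDim r w = r ∧ MomentBound r a w k ∧ StripBound r a w (1 / (2 * (k : ℝ)))) := by
  have h2 : ∀ (k d : ℕ) (a : ℝ), 1 ≤ k → 4 * k + 1 ≤ d → 0 < a → ∀ᵐ v : Fin d → ℝ,
      ∀ (r : ℕ) (w : Fin r → ℝ), (∀ i, 0 < w i) →
        Submodule.span ℚ (Set.range w) = Submodule.span ℚ (Set.range v) →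
        weightDim r w = d ∧ MomentBound r a w k ∧ StripBound r a w (1 / (2 * (k : ℝ))) := by
    intro k d a hk hd ha
    filter_upwards [Pool.Agent.Helper73.BL.main_point k d a hk hd ha,
      Pool.Agent.Helper73.BL.main_moment k d a hk hd ha] with v hv hv' r w hw hspan
    have hdim := weightDim_eq hv.1 hspan
    refine ⟨hdim, ?_, ?_⟩
    · intro Z hZ ε hε σ₁
      obtain ⟨c, hc⟩ := Pool.Agent.H131R5.BZ.exists_taylor a hw
      obtain ⟨C, hC, h⟩ := hv'.2 r w hw hspan c hc ε hε σ₁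
      refine ⟨C, fun σ T h1 h2 h3 => ?_⟩
      rw [hdim] at h1
      have h4 : ∫ t in (2 : ℝ)..T, ‖Z (σ + t * Complex.I)‖ ^ (2 * k) =
          ∫ t in (2 : ℝ)..T,
            ‖Pool.Agent.H131R5.BZ.FF a w c ((σ : ℂ) + t * Complex.I)‖ ^ (2 * k) := by
        refine intervalIntegral.integral_congr fun t ht => ?_
        rw [Set.uIcc_of_le h3] at ht
        have h5 := zeta_eq ha hw hc hZ σ (t := t) (by linarith [ht.1])
        simp only [h5]
      rw [h4]
      exact h σ T h1 h2 h3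
    · intro Z hZ ε hε σ₁
      obtain ⟨c, hc⟩ := Pool.Agent.H131R5.BZ.exists_taylor a hw
      obtain ⟨C, hC, h⟩ := hv.2 r w hw hspan c hc ε hε σ₁
      refine ⟨C, fun σ t h1 h2 h3 => ?_⟩
      rw [hdim] at h1
      rw [zeta_eq ha hw hc hZ σ (by linarith)]
      exact h σ t h1 h2 h3
  refine ⟨exists_zeta, h2, fun k r a hk hr ha => ?_⟩
  filter_upwards [h2 k r a hk hr ha] with w hw hpos
  exact hw r w hpos rfl

end Pool.Agent.Results.MP_fcb754_nt.LargeDimension
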