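import Pool.Agent.Helper8.Bz.W2
import Pool.Agent.Helper8.Bz.D1

/-!
# How often the bound for the Barnes multiple zeta function fails

The weights are called `τ`-approximable if for arbitrarily large real `x` all `x w_j` are within
`x^(-τ)` of integers. For all `a > 0`, all weights and all `σ ≥ r - 3/2`, `σ ≥ 1`, we determine the
size of `ζ_r(σ + it; a, w)` for almost all ordinates `t`, in the sense of a power saving: let
`μ(σ)` be the maximum of `0` and of all `(r - σ) τ / (1 + τ) - 1/2` for which `w` is `τ`-approximable.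
For `η > μ(σ)` the set of the `t ∈ [T, 2T]` with `|ζ_r(σ' + it; a, w)| > t^η` for some `σ' ≥ σ` has
measure `O(T^(1 - 2 (η - μ(σ)) + ε))`, and for `0 ≤ η < μ(σ)` the set of the `t ∈ [T, 2T]` with
`|ζ_r(σ + it; a, w)| > t^η` has measure at least `T^(1 - δ)` for arbitrarily large `T`, for every
`δ > 0`. For weights of dimension at most three this covers the whole range of Q1. So the bound of Q1
either holds outside very small sets of ordinates, or there is an `η > 0` for which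
`|ζ_r(r - d/2 + it; a, w)| > t^η` on sets of measure `T^(1 - δ)`.

Proof idea: the upper bound follows from the mean square. For the lower bound we compare the first
moment, which is at least `T^(1 + μ - ε)` for arbitrarily large `T`, with the mean square, which is at
most `T^(1 + 2 μ + ε)`.
-/

set_option autoImplicit false

open Filter Topology Asymptotics MeasureTheory

namespace Pool.Agent.Results.MP_fcb754_nt.LargeValues

/-- The Dirichlet series `∑ (a + m₁ w₁ + ⋯ + m_r w_r)^{-s}` over `m ∈ ℕ^r` (with `0 ∈ ℕ`). -/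
noncomputable def barnesSeries (r : ℕ) (a : ℝ) (w : Fin r → ℝ) (s : ℂ) : ℂ :=
  ∑' m : Fin r → ℕ, ((a + ∑ i, (m i : ℝ) * w i : ℝ) : ℂ) ^ (-s)

/-- `Z` is the Barnes multiple zeta function `ζ_r(·, a, w)`: it is holomorphic on the complex plane
except for possible simple poles at `1, …, r`, and for `Re s > r` it is given by the (summable)
Dirichlet series. -/
structure IsBarnesZeta (r : ℕ) (a : ℝ) (w : Fin r → ℝ) (Z : ℂ → ℂ) : Prop where
  holomorphic : ∀ s : ℂ, (∀ j : ℕ, 1 ≤ j → j ≤ r → s ≠ j) → DifferentiableAt ℂ Z s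
  simple_pole : ∀ j : ℕ, 1 ≤ j → j ≤ r →
    ∃ c : ℂ, Tendsto (fun s : ℂ => (s - j) * Z s) (𝓝[≠] (j : ℂ)) (𝓝 c)
  summable : ∀ s : ℂ, (r : ℝ) < s.re →
    Summable fun m : Fin r → ℕ => ((a + ∑ i, (m i : ℝ) * w i : ℝ) : ℂ) ^ (-s)
  series : ∀ s : ℂ, (r : ℝ) < s.re → Z s = barnesSeries r a w s

/-- The dimension `d` of the `ℚ`-vector space spanned by the weights. -/
noncomputable def weightDim (r : ℕ) (w : Fin r → ℝ) : ℕ :=
  Module.finrank ℚ (Submodule.span ℚ (Set.range w))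

/-- The weights are `τ`-approximable: there are arbitrarily large real numbers `x` such that each of
the numbers `x w_j` is within `x^(-τ)` of an integer. -/
def Approximable {r : ℕ} (w : Fin r → ℝ) (τ : ℝ) : Prop :=
  ∀ X : ℝ, ∃ x : ℝ, X ≤ x ∧ 1 ≤ x ∧ ∀ j, ∃ N : ℤ, |x * w j - N| ≤ x ^ (-τ)

/-- The set of the ordinates `t ∈ [T, 2T]` with `|Z(x + it)| > t^η` for some `x ∈ [σ, σ₁]`. -/
def largeSet (Z : ℂ → ℂ) (σ σ₁ η T : ℝ) : Set ℝ :=
  {t : ℝ | T ≤ t ∧ t ≤ 2 * T ∧ ∃ x : ℝ, σ ≤ x ∧ x ≤ σ₁ ∧ t ^ η < ‖Z (x + t * Complex.I)‖}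

/-- The bound `t^η`, for each `η > μ`, holds on the line `Re s = σ` for all ordinates in `[T, 2T]`
outside a set of measure `O(T^(1 - δ))`, with some `δ > 0` which may depend on `η`. -/
def TypicalBound (Z : ℂ → ℂ) (σ μ : ℝ) : Prop :=
  ∀ η : ℝ, μ < η → ∃ δ C : ℝ, 0 < δ ∧ ∀ T : ℝ, 2 ≤ T →
    volume (largeSet Z σ σ η T) ≤ ENNReal.ofReal (C * T ^ (1 - δ))

/-- For all `σ₁`, `η ≥ 0` and `ε > 0` the set of the ordinates `t ∈ [T, 2T]` with
`|Z(x + it)| > t^η` for some `x ∈ [σ, σ₁]` has measure `O(T^(1 - 2 (η - μ) + ε))`. -/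
def RareBound (Z : ℂ → ℂ) (σ μ : ℝ) : Prop :=
  ∀ σ₁ η ε : ℝ, 0 ≤ η → 0 < ε → ∃ C : ℝ, ∀ T : ℝ, 2 ≤ T →
    volume (largeSet Z σ σ₁ η T) ≤ ENNReal.ofReal (C * T ^ (1 - 2 * (η - μ) + ε))

theorem exists_zeta (r : ℕ) (a : ℝ) (w : Fin r → ℝ) (ha : 0 < a) (hw : ∀ i, 0 < w i) :
    ∃ Z : ℂ → ℂ, IsBarnesZeta r a w Z := by
  obtain ⟨c, hc⟩ := Pool.Agent.H131R5.BZ.exists_taylor a hw
  refine ⟨Pool.Agent.H131R5.BZ.FF a w c, ?_, ?_, ?_, ?_⟩
  · exact fun s hs => Pool.Agent.H131R5.BZ.FF_diff ha hw hc hs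
  · exact fun j h1 h2 => Pool.Agent.Y930.Bz.FF_pole ha hw hc j h1 h2
  · exact fun s hs => (Pool.Agent.H131R5.BZ.FF_series ha hw hc hs).summable
  · exact fun s hs => (Pool.Agent.H131R5.BZ.FF_series ha hw hc hs).tsum_eq.symm

theorem dim_le (r : ℕ) (w : Fin r → ℝ) : weightDim r w ≤ r := by
  unfold weightDim
  have := finrank_range_le_card (R := ℚ) w
  simpa [Set.finrank] using this

theorem dim_pos {r : ℕ} {w : Fin r → ℝ} (hr : 0 < r) (hw : ∀ i, 0 < w i) : 1 ≤ weightDim r w := by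
  unfold weightDim
  haveI : Module.Finite ℚ (Submodule.span ℚ (Set.range w)) :=
    Module.Finite.span_of_finite ℚ (Set.finite_range w)
  rw [Nat.one_le_iff_ne_zero]
  intro h
  have h1 := Module.finrank_zero_iff.1 h
  have h2 : (⟨w ⟨0, hr⟩, Submodule.subset_span ⟨_, rfl⟩⟩ :
      Submodule.span ℚ (Set.range w)) = 0 := Subsingleton.elim _ _
  have h3 := congrArg Subtype.val h2
  exact (hw ⟨0, hr⟩).ne' h3

theorem frequent {r : ℕ} {a : ℝ} {w : Fin r → ℝ} {Z : ℂ → ℂ} (hr : 2 ≤ r) (ha : 0 < a)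
    (hw : ∀ i, 0 < w i) (hZ : IsBarnesZeta r a w Z) {σ : ℝ} (hσ : 1 / 2 < σ)
    (hσr : (r : ℝ) - 3 / 2 ≤ σ) {τ η δ : ℝ} (hτ : 0 < τ) (hA : Approximable w τ) (hη0 : 0 ≤ η)
    (hη : η < (r - σ) * τ / (1 + τ) - 1 / 2) (hδ : 0 < δ) (T₀ : ℝ) :
    ∃ T : ℝ, T₀ ≤ T ∧ ENNReal.ofReal (T ^ (1 - δ)) < volume (largeSet Z σ σ η T) := by
  obtain ⟨T, hT, h⟩ := Pool.Agent.Helper8.Bz.frequent hr ha hw (fun s hs => hZ.holomorphic s hs)
    (fun s hs => hZ.series s hs) hσ hσr hτ hA hη0 hη hδ T₀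
  refine ⟨T, hT, h.trans_le (measure_mono ?_)⟩
  rintro t ⟨h1, h2, h3⟩
  exact ⟨h1, h2, σ, le_rfl, le_rfl, h3⟩

theorem main {r : ℕ} {a : ℝ} {w : Fin r → ℝ} {Z : ℂ → ℂ} (hr : 2 ≤ r) (ha : 0 < a)
    (hw : ∀ i, 0 < w i) (hZ : IsBarnesZeta r a w Z) {σ μ : ℝ} (hσ : 1 ≤ σ)
    (hσr : (r : ℝ) - 3 / 2 ≤ σ) (hμ : 0 ≤ μ) :
    List.TFAE [RareBound Z σ μ, TypicalBound Z σ μ,
      ∀ τ : ℝ, 0 < τ → Approximable w τ → (r - σ) * τ / (1 + τ) - 1 / 2 ≤ μ] := by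
  tfae_have 1 → 2 := by
    intro h η hη
    obtain ⟨C, hC⟩ := h σ η (η - μ) (by linarith) (by linarith)
    refine ⟨η - μ, C, by linarith, fun T hT => ?_⟩
    have e : 1 - 2 * (η - μ) + (η - μ) = 1 - (η - μ) := by ring
    rw [← e]
    exact hC T hT
  tfae_have 2 → 3 := by
    intro h τ hτ hA
    by_contra hcon
    push Not at hcon
    obtain ⟨η, h1, h2⟩ := exists_between hcon
    obtain ⟨δ, C, hδ, hC⟩ := h η h1
    have hev : ∀ᶠ T : ℝ in atTop, C ≤ T ^ (δ / 2) :=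
      (tendsto_rpow_atTop (by positivity : 0 < δ / 2)).eventually_ge_atTop C
    obtain ⟨T₀, hT₀⟩ := (hev.and (eventually_ge_atTop (2 : ℝ))).exists_forall_of_atTop
    obtain ⟨T, hT, hbig⟩ := frequent hr ha hw hZ (by linarith) hσr hτ hA (by linarith) h2
      (half_pos hδ) T₀
    obtain ⟨h3, h4⟩ := hT₀ T hT
    have h5 := hbig.trans_le (hC T h4)
    have h6 : C * T ^ (1 - δ) ≤ T ^ (1 - δ / 2) := by
      have hT0 : 0 < T := by linarith
      calc C * T ^ (1 - δ) ≤ T ^ (δ / 2) * T ^ (1 - δ) := by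
            have : 0 ≤ T ^ (1 - δ) := Real.rpow_nonneg hT0.le _
            gcongr
        _ = T ^ (1 - δ / 2) := by
            rw [← Real.rpow_add hT0]
            congr 1
            ring
    exact absurd h5 (not_lt.2 (ENNReal.ofReal_le_ofReal h6))
  tfae_have 3 → 1 := by
    intro h σ₁ η ε hη hε
    obtain ⟨C, hC⟩ := Pool.Agent.Helper8.Bz.rare hr ha hw (fun s hs => hZ.holomorphic s hs)
      (fun s hs => hZ.series s hs) hσ hσr (κ := 1 + 2 * μ) (by linarith) (fun τ hτ hA => by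
        have h1 := h τ hτ hA
        have e : 2 * ((r : ℝ) - σ) * τ / (1 + τ) = 2 * ((r - σ) * τ / (1 + τ)) := by ring
        rw [e]
        linarith) σ₁ hη hε
    refine ⟨C, fun T hT => ?_⟩
    have e : 1 - 2 * (η - μ) + ε = 1 + 2 * μ - 2 * η + ε := by ring
    rw [e]
    exact hC T hT
  tfae_finish

theorem quot_iff {d τ : ℝ} (hτ : 0 < τ) :
    d / 2 * τ / (1 + τ) - 1 / 2 ≤ 0 ↔ (d - 1) * τ ≤ 1 := by
  have h1 : d / 2 * τ / (1 + τ) - 1 / 2 ≤ 0 ↔ d / 2 * τ / (1 + τ) ≤ 1 / 2 := by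
    constructor <;> intro h <;> linarith
  rw [h1, div_le_iff₀ (by linarith)]
  constructor <;> intro h <;> linarith

/-- (0) The Barnes multiple zeta function exists for all `r`, `a > 0` and positive weights `w`.
Let `r ≥ 2`, `a > 0`, let `w` be positive weights and `Z = ζ_r(·, a, w)`.
(1) For `σ ≥ 1`, `σ ≥ r - 3/2` and `μ ≥ 0` the following are equivalent: `RareBound Z σ μ`;
`TypicalBound Z σ μ`; `(r - σ) τ / (1 + τ) - 1/2 ≤ μ` for all `τ > 0` for which `w` is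
`τ`-approximable. (2) For `σ > 1/2`, `σ ≥ r - 3/2`, if `w` is `τ`-approximable and
`0 ≤ η < (r - σ) τ / (1 + τ) - 1/2`, then for all `δ > 0` there are arbitrarily large `T` such that the
set of the `t ∈ [T, 2T]` with `|Z(σ + it)| > t^η` has measure larger than `T^(1 - δ)`.
(3) Let the dimension `d` of the weights be at most `3`. The following are equivalent: the bound of Q1
holds outside small sets, i.e. `RareBound Z (r - d/2) 0` for all `a`; `TypicalBound Z (r - d/2) 0` for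
some `a`; `w` is `τ`-approximable for no `τ > 0` with `(d - 1) τ > 1`.
(4) For `d = 2`, `w_j / w_i` irrational and `μ ≥ 0`: `TypicalBound Z (r - 1) μ` holds if and only if
`1/2 - 1/p ≤ μ` for all `p > 2` for which `w_j / w_i` is a `p`-Liouville number. -/
theorem result :
    (∀ (r : ℕ) (a : ℝ) (w : Fin r → ℝ), 0 < a → (∀ i, 0 < w i) →
      ∃ Z : ℂ → ℂ, IsBarnesZeta r a w Z) ∧
    (∀ (r : ℕ) (a : ℝ) (w : Fin r → ℝ) (Z : ℂ → ℂ), 2 ≤ r → 0 < a → (∀ i, 0 < w i) →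
      IsBarnesZeta r a w Z → ∀ σ μ : ℝ, 1 ≤ σ → (r : ℝ) - 3 / 2 ≤ σ → 0 ≤ μ →
        List.TFAE [RareBound Z σ μ, TypicalBound Z σ μ,
          ∀ τ : ℝ, 0 < τ → Approximable w τ → (r - σ) * τ / (1 + τ) - 1 / 2 ≤ μ]) ∧
    (∀ (r : ℕ) (a : ℝ) (w : Fin r → ℝ) (Z : ℂ → ℂ), 2 ≤ r → 0 < a → (∀ i, 0 < w i) →
      IsBarnesZeta r a w Z → ∀ σ τ η δ T₀ : ℝ, 1 / 2 < σ → (r : ℝ) - 3 / 2 ≤ σ → 0 < τ →
        Approximable w τ → 0 ≤ η → η < (r - σ) * τ / (1 + τ) - 1 / 2 → 0 < δ →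
          ∃ T : ℝ, T₀ ≤ T ∧ ENNReal.ofReal (T ^ (1 - δ)) < volume (largeSet Z σ σ η T)) ∧
    (∀ (r : ℕ) (w : Fin r → ℝ), 2 ≤ r → (∀ i, 0 < w i) → weightDim r w ≤ 3 →
      List.TFAE [
        ∀ (a : ℝ) (Z : ℂ → ℂ), 0 < a → IsBarnesZeta r a w Z →
          RareBound Z ((r : ℝ) - (weightDim r w : ℝ) / 2) 0,
        ∃ (a : ℝ) (Z : ℂ → ℂ), 0 < a ∧ IsBarnesZeta r a w Z ∧
          TypicalBound Z ((r : ℝ) - (weightDim r w : ℝ) / 2) 0,
        ∀ τ : ℝ, 0 < τ → Approximable w τ → ((weightDim r w : ℝ) - 1) * τ ≤ 1]) ∧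
    (∀ (r : ℕ) (a : ℝ) (w : Fin r → ℝ) (Z : ℂ → ℂ), 0 < a → (∀ i, 0 < w i) →
      IsBarnesZeta r a w Z → weightDim r w = 2 → ∀ i j : Fin r, Irrational (w j / w i) →
        ∀ μ : ℝ, 0 ≤ μ → (TypicalBound Z ((r : ℝ) - 1) μ ↔
          ∀ p : ℝ, 2 < p → LiouvilleWith p (w j / w i) → 1 / 2 - 1 / p ≤ μ)) := by
  refine ⟨exists_zeta, ?_, ?_, ?_, ?_⟩
  · intro r a w Z hr ha hw hZ σ μ hσ hσr hμ
    exact main hr ha hw hZ hσ hσr hμ
  · intro r a w Z hr ha hw hZ σ τ η δ T₀ hσ hσr hτ hA hη0 hη hδ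
    exact frequent hr ha hw hZ hσ hσr hτ hA hη0 hη hδ T₀
  · intro r w hr hw hd
    have hr' : (2 : ℝ) ≤ r := by exact_mod_cast hr
    have hdr : (weightDim r w : ℝ) ≤ r := by exact_mod_cast dim_le r w
    have hd3 : (weightDim r w : ℝ) ≤ 3 := by exact_mod_cast hd
    have hσ1 : 1 ≤ (r : ℝ) - (weightDim r w : ℝ) / 2 := by linarith
    have hσ2 : (r : ℝ) - 3 / 2 ≤ (r : ℝ) - (weightDim r w : ℝ) / 2 := by linarith
    have key : ∀ (a : ℝ) (Z : ℂ → ℂ), 0 < a → IsBarnesZeta r a w Z → _ := fun a Z ha hZ =>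
      main (Z := Z) hr ha hw hZ hσ1 hσ2 (le_refl (0 : ℝ))
    have e : ((r : ℝ) - (r - (weightDim r w : ℝ) / 2)) = (weightDim r w : ℝ) / 2 := by ring
    have hcond : (∀ τ : ℝ, 0 < τ → Approximable w τ →
        ((r : ℝ) - (r - (weightDim r w : ℝ) / 2)) * τ / (1 + τ) - 1 / 2 ≤ 0) ↔
        ∀ τ : ℝ, 0 < τ → Approximable w τ → ((weightDim r w : ℝ) - 1) * τ ≤ 1 := by
      rw [e]
      exact forall_congr' fun τ => forall_congr' fun hτ => forall_congr' fun _ => quot_iff hτ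
    tfae_have 1 → 2 := by
      intro h
      obtain ⟨Z, hZ⟩ := exists_zeta r 1 w one_pos hw
      exact ⟨1, Z, one_pos, hZ, ((key 1 Z one_pos hZ).out 0 1).1 (h 1 Z one_pos hZ)⟩
    tfae_have 2 → 3 := by
      rintro ⟨a, Z, ha, hZ, h⟩
      exact hcond.1 (((key a Z ha hZ).out 1 2).1 h)
    tfae_have 3 → 1 := by
      intro h a Z ha hZ
      exact ((key a Z ha hZ).out 0 2).2 (hcond.2 h)
    tfae_finish
  · intro r a w Z ha hw hZ hd i j hirr μ hμ
    have hr : 2 ≤ r := hd ▸ dim_le r w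
    have hr' : (2 : ℝ) ≤ r := by exact_mod_cast hr
    have h0 : TypicalBound Z ((r : ℝ) - 1) μ ↔ ∀ τ : ℝ, 0 < τ → Approximable w τ →
        ((r : ℝ) - (r - 1)) * τ / (1 + τ) - 1 / 2 ≤ μ :=
      (main hr ha hw hZ (σ := (r : ℝ) - 1) (by linarith) (by linarith) hμ).out 1 2
    rw [h0]
    have h1 := Pool.Agent.Helper8.Bz.cond_iff (B := 2) hw hirr hd (by norm_num)
      (κ := 1 + 2 * μ) (by linarith)
    have h2 : (∀ τ : ℝ, 0 < τ → Approximable w τ →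
        ((r : ℝ) - (r - 1)) * τ / (1 + τ) - 1 / 2 ≤ μ) ↔
        ∀ τ : ℝ, 0 < τ → Approximable w τ → 2 * τ / (1 + τ) ≤ 1 + 2 * μ := by
      refine forall_congr' fun τ => forall_congr' fun _ => forall_congr' fun _ => ?_
      have e : ((r : ℝ) - (r - 1)) * τ / (1 + τ) = 2 * τ / (1 + τ) / 2 := by ring
      rw [e]
      constructor <;> intro h <;> linarith
    have h3 : (∀ p : ℝ, 2 < p → LiouvilleWith p (w j / w i) → 1 / 2 - 1 / p ≤ μ) ↔
        ∀ p : ℝ, 2 < p → LiouvilleWith p (w j / w i) → 2 * (1 - 1 / p) ≤ 1 + 2 * μ := by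
      refine forall_congr' fun p => forall_congr' fun _ => forall_congr' fun _ => ?_
      constructor <;> intro h <;> linarith
    rw [h2, h3]
    exact h1

end Pool.Agent.Results.MP_fcb754_nt.LargeValues
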