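import Pool.Agent.Helper8.Bz.V4
import Pool.Agent.Helper8.Bz.D1

/-!
# The growth of the Barnes multiple zeta function and simultaneous approximation of the weights

Let `d` be the dimension of the `ℚ`-space spanned by the weights. The weights are called
`τ`-approximable if for arbitrarily large real `x` all `x w_j` are within `x^(-τ)` of integers. By
Dirichlet's theorem this is the case for `τ < 1/(d - 1)`; for `d = 2` the least upper bound of the `τ`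
is `μ - 1`, where `μ` is the irrationality exponent of an irrational ratio `w_j / w_i`.

For all `a > 0` and all weights the exponent of the growth of `ζ_r(σ + it; a, w)` is at least
`(r - σ) τ / (1 + τ) - 1/2` for the admissible `τ`; for `σ ≥ r - 2` this is the exact exponent whenever
it is at least `1/2`. For `d ≤ 4` this applies at the left end `σ = r - d/2` of the range of Q1. In the
remaining part of the range we have the upper bound `(r - σ) τ / (2 (1 + τ))`. For `d = 2` and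
`σ = r - 1` the exponent lies between `1/2 - 1/μ` and `1/2 - 1/(2 μ)`.

Proof idea: `K(z) = exp(-a z) ∏ 1/(1 - exp(-w_j z))` is the inverse Mellin transform of
`Γ(s) ζ_r(s)`. If all `x w_j` are within `x^(-τ)` of integers, then `K` is large near `2 π i x`, and this
gives the lower bound. For the upper bound we rotate the ray of integration in the Mellin transform to
the angle `π/2 - 1/T` and estimate the integral of `|K|` by counting the `x ≤ T` for which all `x w_j`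
are within `h` of integers, for all `h`; two such `x` with different nearest integers have a large
distance, by the Diophantine hypothesis applied to their difference. The rest is interpolation.
-/

set_option autoImplicit false

open Filter Topology Asymptotics

namespace Pool.Agent.Results.MP_fcb754_nt.PointwiseExponent

/-- The Dirichlet series `∑ (a + m₁ w₁ + ⋯ + m_r w_r)^{-s}` over `m ∈ ℕ^r` (with `0 ∈ ℕ`). -/
noncomputable def barnesSeries (r : ℕ) (a : ℝ) (w : Fin r → ℝ) (s : ℂ) : ℂ :=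
  ∑' m : Fin r → ℕ, ((a + ∑ i, (m i : ℝ) * w i : ℝ) : ℂ) ^ (-s)

/-- `Z` is the Barnes multiple zeta function `ζ_r(·, a, w)`: it is holomorphic on the complex plane
except for possible simple poles at `1, …, r`, and for `Re s > r` it is given by the (summable)
Dirichlet series. -/
structure IsBarnesZeta (r : ℕ) (a : ℝ) (w : Fin r → ℝ) (Z : ℂ → ℂ) : Prop where
  holomorphic : ∀ s : ℂ, (∀ j : ℕ, 1 ≤ j → j ≤ r → s ≠ j) → DifferentiableAt ℂ Z s
  simple_pole : ∀ j : ℕ, 1 ≤ j → j ≤ r →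
    ∃ c : ℂ, Tendsto (fun s : ℂ => (s - j) * Z s) (𝓝[≠] (j : ℂ)) (𝓝 c)
  summable : ∀ s : ℂ, (r : ℝ) < s.re →
    Summable fun m : Fin r → ℕ => ((a + ∑ i, (m i : ℝ) * w i : ℝ) : ℂ) ^ (-s)
  series : ∀ s : ℂ, (r : ℝ) < s.re → Z s = barnesSeries r a w s

/-- The dimension `d` of the `ℚ`-vector space spanned by the weights. -/
noncomputable def weightDim (r : ℕ) (w : Fin r → ℝ) : ℕ :=
  Module.finrank ℚ (Submodule.span ℚ (Set.range w))

/-- The weights are `τ`-approximable: there are arbitrarily large real numbers `x` such that each of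
the numbers `x w_j` is within `x^(-τ)` of an integer. -/
def Approximable {r : ℕ} (w : Fin r → ℝ) (τ : ℝ) : Prop :=
  ∀ X : ℝ, ∃ x : ℝ, X ≤ x ∧ 1 ≤ x ∧ ∀ j, ∃ N : ℤ, |x * w j - N| ≤ x ^ (-τ)

/-- `Z(σ + it) = O(t^(μ + ε))` for `t → ∞`, for every `ε > 0`. -/
def GrowthBound (Z : ℂ → ℂ) (σ μ : ℝ) : Prop :=
  ∀ ε : ℝ, 0 < ε → (fun t : ℝ => Z (σ + t * Complex.I)) =O[atTop] fun t : ℝ => t ^ (μ + ε)

/-- For every `ε > 0` and every real `σ₁` we have `|Z(σ + it)| ≤ C t^(μ + ε)` uniformly for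
`α ≤ σ ≤ σ₁` and `t ≥ 2`. (The bound of Q1 for given `r`, `a`, `w` is the case `α = r - d/2`,
`μ = 0`.) -/
def StripBound (Z : ℂ → ℂ) (α μ : ℝ) : Prop :=
  ∀ ε σ₁ : ℝ, 0 < ε → ∃ C : ℝ, ∀ σ t : ℝ, α ≤ σ → σ ≤ σ₁ → 2 ≤ t →
    ‖Z (σ + t * Complex.I)‖ ≤ C * t ^ (μ + ε)

theorem exists_zeta (r : ℕ) (a : ℝ) (w : Fin r → ℝ) (ha : 0 < a) (hw : ∀ i, 0 < w i) :
    ∃ Z : ℂ → ℂ, IsBarnesZeta r a w Z := by
  obtain ⟨c, hc⟩ := Pool.Agent.H131R5.BZ.exists_taylor a hw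
  refine ⟨Pool.Agent.H131R5.BZ.FF a w c, ?_, ?_, ?_, ?_⟩
  · exact fun s hs => Pool.Agent.H131R5.BZ.FF_diff ha hw hc hs
  · exact fun j h1 h2 => Pool.Agent.Y930.Bz.FF_pole ha hw hc j h1 h2
  · exact fun s hs => (Pool.Agent.H131R5.BZ.FF_series ha hw hc hs).summable
  · exact fun s hs => (Pool.Agent.H131R5.BZ.FF_series ha hw hc hs).tsum_eq.symm

theorem zeta_eq {r : ℕ} {a : ℝ} {w : Fin r → ℝ} {c : ℕ → ℂ} (ha : 0 < a) (hw : ∀ i, 0 < w i)
    (hc : Pool.Agent.Y930.Bz.Tay a w c) {Z : ℂ → ℂ} (hZ : IsBarnesZeta r a w Z) (σ : ℝ) {t : ℝ}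
    (ht : 0 < t) : Z ((σ : ℂ) + t * Complex.I) =
      Pool.Agent.H131R5.BZ.FF a w c ((σ : ℂ) + t * Complex.I) := by
  have hE := Pool.Agent.Y930.Bz.eq_FF ha hw hc (fun s hs => hZ.holomorphic s hs)
    (fun s hs => hZ.series s hs)
  have hm : ((σ : ℂ) + t * Complex.I) ∈ Pool.Agent.Y930.Bz.Om r := by
    intro k _ _ h
    have := congrArg Complex.im h
    simp at this
    linarith
  exact hE _ hm

theorem dim_le (r : ℕ) (w : Fin r → ℝ) : weightDim r w ≤ r := by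
  unfold weightDim
  have := finrank_range_le_card (R := ℚ) w
  simpa [Set.finrank] using this

theorem growth_of_strip {Z : ℂ → ℂ} {α μ : ℝ} (h : StripBound Z α μ) : GrowthBound Z α μ := by
  intro ε hε
  obtain ⟨C, hC⟩ := h ε α hε
  refine IsBigO.of_bound C ?_
  filter_upwards [eventually_ge_atTop (2 : ℝ)] with t ht
  have ht0 : 0 ≤ t := by linarith
  rw [Real.norm_eq_abs, abs_of_nonneg (Real.rpow_nonneg ht0 _)]
  exact hC α t le_rfl le_rfl ht

theorem lower {r : ℕ} {a : ℝ} {w : Fin r → ℝ} {Z : ℂ → ℂ} (ha : 0 < a) (hw : ∀ i, 0 < w i)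
    (hZ : IsBarnesZeta r a w Z) {σ μ : ℝ} (hσ : 1 / 2 < σ) (hσr : σ < r)
    (h : GrowthBound Z σ μ) {τ : ℝ} (hτ : 0 < τ) (hA : Approximable w τ) :
    (r - σ) * τ / (1 + τ) - 1 / 2 ≤ μ := by
  by_contra hcon
  push Not at hcon
  set ε : ℝ := ((r - σ) * τ / (1 + τ) - 1 / 2 - μ) / 2 with hε
  have hε0 : 0 < ε := by rw [hε]; linarith
  refine Pool.Agent.Helper8.Bz.not_pointwise2 ha hw hτ hA (fun s hs => hZ.holomorphic s hs)
    (fun s hs => hZ.series s hs) hσ hσr (η := μ + ε) ?_ (h ε hε0)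
  have e : τ * (r - σ) / (1 + τ) = (r - σ) * τ / (1 + τ) := by ring
  rw [e, hε]
  linarith

theorem exact {r : ℕ} {a : ℝ} {w : Fin r → ℝ} {Z : ℂ → ℂ} (hr : 2 ≤ r) (ha : 0 < a)
    (hw : ∀ i, 0 < w i) (hZ : IsBarnesZeta r a w Z) {α μ : ℝ} (hα : 1 / 2 < α)
    (hαr : (r : ℝ) - 2 ≤ α) (hμ : 1 / 2 ≤ μ) :
    StripBound Z α μ ↔
      ∀ τ : ℝ, 0 < τ → Approximable w τ → (r - α) * τ / (1 + τ) - 1 / 2 ≤ μ := by
  constructor
  · intro h τ hτ hA
    rcases lt_or_ge α r with h1 | h1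
    · exact lower ha hw hZ hα h1 (growth_of_strip h) hτ hA
    · have h2 : (r - α) * τ / (1 + τ) ≤ 0 :=
        div_nonpos_of_nonpos_of_nonneg (mul_nonpos_of_nonpos_of_nonneg (by linarith) hτ.le)
          (by linarith)
      linarith
  · intro h ε σ₁ hε
    obtain ⟨c, hc⟩ := Pool.Agent.H131R5.BZ.exists_taylor a hw
    obtain ⟨C, -, hC⟩ := Pool.Agent.Helper8.Bz.strip_upper hr ha hw hc (by linarith) hαr hμ h σ₁ hε
    refine ⟨C, fun σ t hσ hσ1 ht => ?_⟩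
    rw [zeta_eq ha hw hc hZ σ (by linarith)]
    exact hC σ t hσ hσ1 ht

theorem interpolated {r : ℕ} {a : ℝ} {w : Fin r → ℝ} {Z : ℂ → ℂ} (hr : 2 ≤ r) (ha : 0 < a)
    (hw : ∀ i, 0 < w i) (hZ : IsBarnesZeta r a w Z) {τ : ℝ} (hτ : 1 ≤ τ)
    (hA : ¬ Approximable w τ) {ε σ₁ : ℝ} (hε : 0 < ε) :
    ∃ C : ℝ, ∀ σ t : ℝ, (r : ℝ) - 1 - 1 / τ + ε ≤ σ → σ ≤ σ₁ → 2 ≤ t →
      ‖Z (σ + t * Complex.I)‖ ≤ C * t ^ (max 0 ((r - σ) * τ / (2 * (1 + τ))) + ε) := by
  obtain ⟨c, hc⟩ := Pool.Agent.H131R5.BZ.exists_taylor a hw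
  have hτ0 : 0 < τ := by linarith
  obtain ⟨C, -, hC⟩ := Pool.Agent.Helper8.Bz.interp_upper hr ha hw hc (ν := 1 / τ)
    (by positivity) (by rw [div_le_one hτ0]; exact hτ)
    (Pool.Agent.Helper8.Bz.DC_of_not_appr hτ0 hA) σ₁ hε
  refine ⟨C, fun σ t hσ hσ1 ht => ?_⟩
  rw [zeta_eq ha hw hc hZ σ (by linarith)]
  have e : ((r : ℝ) - σ) / (2 * (1 + 1 / τ)) = (r - σ) * τ / (2 * (1 + τ)) := by
    field_simp
    ring
  rw [← e]
  exact hC σ t hσ hσ1 ht

theorem dimTwo_upper {r : ℕ} {a : ℝ} {w : Fin r → ℝ} {Z : ℂ → ℂ} (ha : 0 < a)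
    (hw : ∀ i, 0 < w i) (hZ : IsBarnesZeta r a w Z) (hd : weightDim r w = 2) {i j : Fin r}
    (hirr : Irrational (w j / w i)) {p : ℝ} (hp : 2 ≤ p)
    (hL : ∀ q : ℝ, p < q → ¬ LiouvilleWith q (w j / w i)) :
    StripBound Z ((r : ℝ) - 1) (1 / 2 - 1 / (2 * p)) := by
  have hr : 2 ≤ r := hd ▸ dim_le r w
  intro ε σ₁ hε
  set q : ℝ := p + ε / 2 with hq
  have hpq : p < q := by rw [hq]; linarith
  have hq0 : 0 < q := by linarith
  have hA : ¬ Approximable w (q - 1) := by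
    intro hA
    have := Pool.Agent.Helper8.Bz.liouvilleWith_of_appr hw hirr (by linarith : 0 < q - 1) hA
    rw [add_sub_cancel] at this
    exact hL q hpq this
  set ε' : ℝ := min (ε / 2) (1 / (q - 1)) with hε'
  have hε'0 : 0 < ε' := lt_min (by positivity) (one_div_pos.2 (by linarith))
  obtain ⟨C, hC⟩ := interpolated hr ha hw hZ (by linarith : 1 ≤ q - 1) hA (σ₁ := σ₁) hε'0
  have hC0 : 0 ≤ |C| := abs_nonneg C
  refine ⟨|C|, fun σ t hσ hσ1 ht => ?_⟩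
  have h1 := hC σ t (by have := min_le_right (ε / 2) (1 / (q - 1)); linarith) hσ1 ht
  refine h1.trans ?_
  have ht1 : 1 ≤ t := by linarith
  have h2 : max 0 (((r : ℝ) - σ) * (q - 1) / (2 * (1 + (q - 1)))) + ε' ≤
      1 / 2 - 1 / (2 * p) + ε := by
    have h3 : max 0 (((r : ℝ) - σ) * (q - 1) / (2 * (1 + (q - 1)))) ≤ 1 / 2 - 1 / (2 * q) := by
      apply max_le
      · have : 1 / (2 * q) ≤ 1 / 2 := by
          apply one_div_le_one_div_of_le (by norm_num)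
          linarith
        linarith
      · have e : 1 + (q - 1) = q := by ring
        rw [e, div_le_iff₀ (by positivity)]
        have e2 : (1 / 2 - 1 / (2 * q)) * (2 * q) = q - 1 := by field_simp
        rw [e2]
        have h4 : (r : ℝ) - σ ≤ 1 := by linarith
        nlinarith
    have h4 : 1 / (2 * p) - 1 / (2 * q) ≤ ε / 2 := by
      have e : 1 / (2 * p) - 1 / (2 * q) = (ε / 2) / (2 * p * q) := by
        rw [hq]
        have : p + ε / 2 ≠ 0 := by linarith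
        field_simp
        ring
      rw [e]
      apply div_le_self (by positivity)
      nlinarith
    have h5 := min_le_left (ε / 2) (1 / (q - 1))
    linarith
  calc C * t ^ (max 0 (((r : ℝ) - σ) * (q - 1) / (2 * (1 + (q - 1)))) + ε')
      ≤ |C| * t ^ (max 0 (((r : ℝ) - σ) * (q - 1) / (2 * (1 + (q - 1)))) + ε') := by
        gcongr
        exact le_abs_self C
    _ ≤ _ := by gcongr

theorem dimTwo_lower {r : ℕ} {a : ℝ} {w : Fin r → ℝ} {Z : ℂ → ℂ} (ha : 0 < a)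
    (hw : ∀ i, 0 < w i) (hZ : IsBarnesZeta r a w Z) (hd : weightDim r w = 2) {i j : Fin r}
    (hirr : Irrational (w j / w i)) {μ : ℝ} (h : GrowthBound Z ((r : ℝ) - 1) μ) {p : ℝ}
    (hp : 2 < p) (hL : LiouvilleWith p (w j / w i)) : 1 / 2 - 1 / p ≤ μ := by
  have hr : 2 ≤ r := hd ▸ dim_le r w
  have hr' : (2 : ℝ) ≤ r := by exact_mod_cast hr
  by_contra hcon
  push Not at hcon
  have hcomb := Pool.Agent.Helper8.Bz.comb (hw i).ne' hirr hd
  have hcont : Tendsto (fun τ : ℝ => τ / (1 + τ) - 1 / 2) (𝓝[<] (p - 1))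
      (𝓝 ((p - 1) / (1 + (p - 1)) - 1 / 2)) := by
    refine Tendsto.mono_left ?_ nhdsWithin_le_nhds
    refine ContinuousAt.tendsto (f := fun τ : ℝ => τ / (1 + τ) - 1 / 2) ?_
    refine ContinuousAt.sub (ContinuousAt.div (by fun_prop) (by fun_prop) ?_) (by fun_prop)
    linarith
  have e : (p - 1) / (1 + (p - 1)) - 1 / 2 = 1 / 2 - 1 / p := by
    have : 1 + (p - 1) = p := by ring
    rw [this]
    field_simp
    ring
  rw [e] at hcont
  have hev := hcont.eventually_const_lt hcon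
  have hev2 : ∀ᶠ τ : ℝ in 𝓝[<] (p - 1), 0 < τ :=
    nhdsWithin_le_nhds (lt_mem_nhds (by linarith))
  obtain ⟨τ, ⟨h1, h2⟩, h3⟩ := ((hev.and hev2).and self_mem_nhdsWithin).exists
  have h3' : τ < p - 1 := h3
  have h4 := lower ha hw hZ (σ := (r : ℝ) - 1) (by linarith) (by linarith) h h2
    (Pool.Agent.Helper8.Bz.appr_of_liouvilleWith hw hcomb h2 (by linarith) hL)
  have e2 : ((r : ℝ) - (r - 1)) * τ / (1 + τ) = τ / (1 + τ) := by
    have : (r : ℝ) - (r - 1) = 1 := by ring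
    rw [this, one_mul]
  rw [e2] at h4
  linarith

theorem necessary {r : ℕ} {a : ℝ} {w : Fin r → ℝ} {Z : ℂ → ℂ} (ha : 0 < a)
    (hw : ∀ i, 0 < w i) (hZ : IsBarnesZeta r a w Z) (hd : 2 ≤ weightDim r w)
    (h : StripBound Z ((r : ℝ) - (weightDim r w : ℝ) / 2) 0) {τ : ℝ}
    (hτ : 1 / ((weightDim r w : ℝ) - 1) < τ) : ¬ Approximable w τ := by
  intro hA
  have hdr' : (weightDim r w : ℝ) ≤ r := by exact_mod_cast dim_le r w
  have hd2' : (2 : ℝ) ≤ weightDim r w := by exact_mod_cast hd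
  have h0 : 0 < 1 / ((weightDim r w : ℝ) - 1) := one_div_pos.2 (by linarith)
  have hτ0 : 0 < τ := h0.trans hτ
  have h1 := lower ha hw hZ (by linarith) (by linarith) (growth_of_strip h) hτ0 hA
  have e : ((r : ℝ) - (r - (weightDim r w : ℝ) / 2)) = (weightDim r w : ℝ) / 2 := by ring
  rw [e] at h1
  have h2 : (weightDim r w : ℝ) / 2 * τ / (1 + τ) ≤ 1 / 2 := by linarith
  rw [div_le_iff₀ (by linarith)] at h2
  rw [div_lt_iff₀ (by linarith)] at hτ
  linarith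

/-- Let `Z = ζ_r(·, a, w)` with `a > 0` and positive weights `w` of dimension `d`.
(0) The Barnes multiple zeta function exists (as defined above) for all `r`, `a > 0` and positive
weights `w`. (1) For `1/2 < σ < r`: if `Z(σ + it) = O(t^(μ + ε))` for all `ε > 0`, then
`(r - σ) τ / (1 + τ) - 1/2 ≤ μ` for all `τ > 0` for which `w` is `τ`-approximable. (2) So if `d ≥ 2` and
the bound of Q1 holds for `r`, `a`, `w`, then `w` is not `τ`-approximable for any `τ > 1/(d - 1)`.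
(3) For `α > 1/2`, `α ≥ r - 2` and `μ ≥ 1/2` the uniform bound `O(t^(μ + ε))` for `α ≤ σ ≤ σ₁` holds
if and only if `(r - α) τ / (1 + τ) - 1/2 ≤ μ` for all `τ > 0` for which `w` is `τ`-approximable.
(4) If `w` is not `τ`-approximable, `τ ≥ 1`, then `|Z(σ + it)| ≤ C t^(max(0, (r - σ) τ/(2 (1 + τ))) + ε)`
uniformly for `r - 1 - 1/τ + ε ≤ σ ≤ σ₁`. (5), (6) For `d = 2`, irrational `w_j / w_i` and `σ = r - 1`
the exponent is at most `1/2 - 1/(2 p)` if the irrationality exponent of `w_j / w_i` is at most `p`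
(uniformly for `r - 1 ≤ σ ≤ σ₁`), and at least `1/2 - 1/p` if `w_j / w_i` is `p`-Liouville. (7) If
`w_j / w_i` is algebraic of degree `n`, then the exponent is at most `1/2 - 1/(2 n)`. -/
theorem result :
    (∀ (r : ℕ) (a : ℝ) (w : Fin r → ℝ), 0 < a → (∀ i, 0 < w i) →
      ∃ Z : ℂ → ℂ, IsBarnesZeta r a w Z) ∧
    (∀ (r : ℕ) (a : ℝ) (w : Fin r → ℝ) (Z : ℂ → ℂ), 0 < a → (∀ i, 0 < w i) →
      IsBarnesZeta r a w Z → ∀ σ μ : ℝ, 1 / 2 < σ → σ < r → GrowthBound Z σ μ →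
        ∀ τ : ℝ, 0 < τ → Approximable w τ → (r - σ) * τ / (1 + τ) - 1 / 2 ≤ μ) ∧
    (∀ (r : ℕ) (a : ℝ) (w : Fin r → ℝ) (Z : ℂ → ℂ), 0 < a → (∀ i, 0 < w i) →
      IsBarnesZeta r a w Z → 2 ≤ weightDim r w →
        StripBound Z ((r : ℝ) - (weightDim r w : ℝ) / 2) 0 →
          ∀ τ : ℝ, 1 / ((weightDim r w : ℝ) - 1) < τ → ¬ Approximable w τ) ∧
    (∀ (r : ℕ) (a : ℝ) (w : Fin r → ℝ) (Z : ℂ → ℂ), 2 ≤ r → 0 < a → (∀ i, 0 < w i) →
      IsBarnesZeta r a w Z → ∀ α μ : ℝ, 1 / 2 < α → (r : ℝ) - 2 ≤ α → 1 / 2 ≤ μ →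
        (StripBound Z α μ ↔
          ∀ τ : ℝ, 0 < τ → Approximable w τ → (r - α) * τ / (1 + τ) - 1 / 2 ≤ μ)) ∧
    (∀ (r : ℕ) (a : ℝ) (w : Fin r → ℝ) (Z : ℂ → ℂ), 2 ≤ r → 0 < a → (∀ i, 0 < w i) →
      IsBarnesZeta r a w Z → ∀ τ : ℝ, 1 ≤ τ → ¬ Approximable w τ → ∀ ε σ₁ : ℝ, 0 < ε →
        ∃ C : ℝ, ∀ σ t : ℝ, (r : ℝ) - 1 - 1 / τ + ε ≤ σ → σ ≤ σ₁ → 2 ≤ t →
          ‖Z (σ + t * Complex.I)‖ ≤ C * t ^ (max 0 ((r - σ) * τ / (2 * (1 + τ))) + ε)) ∧
    (∀ (r : ℕ) (a : ℝ) (w : Fin r → ℝ) (Z : ℂ → ℂ), 0 < a → (∀ i, 0 < w i) →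
      IsBarnesZeta r a w Z → weightDim r w = 2 → ∀ i j : Fin r, Irrational (w j / w i) →
        ∀ p : ℝ, 2 ≤ p → (∀ q : ℝ, p < q → ¬ LiouvilleWith q (w j / w i)) →
          StripBound Z ((r : ℝ) - 1) (1 / 2 - 1 / (2 * p))) ∧
    (∀ (r : ℕ) (a : ℝ) (w : Fin r → ℝ) (Z : ℂ → ℂ), 0 < a → (∀ i, 0 < w i) →
      IsBarnesZeta r a w Z → weightDim r w = 2 → ∀ i j : Fin r, Irrational (w j / w i) →
        ∀ μ p : ℝ, GrowthBound Z ((r : ℝ) - 1) μ → 2 < p → LiouvilleWith p (w j / w i) →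
          1 / 2 - 1 / p ≤ μ) ∧
    (∀ (r : ℕ) (a : ℝ) (w : Fin r → ℝ) (Z : ℂ → ℂ), 0 < a → (∀ i, 0 < w i) →
      IsBarnesZeta r a w Z → weightDim r w = 2 → ∀ i j : Fin r, Irrational (w j / w i) →
        ∀ f : Polynomial ℤ, f ≠ 0 → Polynomial.aeval (w j / w i) f = 0 → 2 ≤ f.natDegree →
          StripBound Z ((r : ℝ) - 1) (1 / 2 - 1 / (2 * (f.natDegree : ℝ)))) := by
  refine ⟨exists_zeta, ?_, ?_, ?_, ?_, ?_, ?_, ?_⟩
  · intro r a w Z ha hw hZ σ μ hσ hσr h τ hτ hA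
    exact lower ha hw hZ hσ hσr h hτ hA
  · intro r a w Z ha hw hZ hd h τ hτ
    exact necessary ha hw hZ hd h hτ
  · intro r a w Z hr ha hw hZ α μ hα hαr hμ
    exact exact hr ha hw hZ hα hαr hμ
  · intro r a w Z hr ha hw hZ τ hτ hA ε σ₁ hε
    exact interpolated hr ha hw hZ hτ hA hε
  · intro r a w Z ha hw hZ hd i j hirr p hp hL
    exact dimTwo_upper ha hw hZ hd hirr hp hL
  · intro r a w Z ha hw hZ hd i j hirr μ p h hp hL
    exact dimTwo_lower ha hw hZ hd hirr h hp hL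
  · intro r a w Z ha hw hZ hd i j hirr f f0 hroot hn
    have hn' : (2 : ℝ) ≤ f.natDegree := by exact_mod_cast hn
    exact dimTwo_upper ha hw hZ hd hirr hn' fun q hq =>
      Pool.Agent.Helper8.Bz.alg_not_liouvilleWith hirr f0 hroot hq

end Pool.Agent.Results.MP_fcb754_nt.PointwiseExponent
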