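import Pool.Agent.Helper73.SC.Fin

/-!
# Subconvexity for the Barnes multiple zeta function with almost all weights

For every `d ≥ 1` and almost every `v ∈ ℝ^d` the following holds for all positive weights `w`, in any
number `r`, which span the same `ℚ`-space as `v` (so that the dimension is `d`), and all `a > 0`: we have
`ζ_r(σ + it, a, w) = O(t^(d/(2(2d+1)) + ε))` uniformly on the whole range `r - d/2 ≤ σ ≤ σ₁` of Q1. The
exponent is less than `1/4`, the exponent given by convexity; it is `1/5` for `d = 2`.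

Proof idea: the terms with `a + m · w ≍ N`, `N ≤ t^(2/(2d+1))`, are summed over boxes. We use
differencing in the sense of Weyl and van der Corput with shifts in `d` of the `r` directions. The
differenced sums are written as integrals of the Fourier transform of the differenced function (second
derivative test) against products of geometric sums `min(N, 1/‖w_j ξ‖)`, whose mean over `|ξ| ≤ X` is
small for almost all weights. Convexity, with the bound `t^(1/2+ε)` on the line `r - d + κ` for almost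
all weights, gives the result.
-/

set_option autoImplicit false

open Filter Topology MeasureTheory

namespace Pool.Agent.Results.MP_fcb754_nt.Subconvexity

/-- The Dirichlet series `∑ (a + m₁ w₁ + ⋯ + m_r w_r)^{-s}` over `m ∈ ℕ^r` (with `0 ∈ ℕ`). -/
noncomputable def barnesSeries (r : ℕ) (a : ℝ) (w : Fin r → ℝ) (s : ℂ) : ℂ :=
  ∑' m : Fin r → ℕ, ((a + ∑ i, (m i : ℝ) * w i : ℝ) : ℂ) ^ (-s)

/-- `Z` is the Barnes multiple zeta function `ζ_r(·, a, w)`: it is holomorphic on the complex plane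
except for possible simple poles at `1, …, r`, and for `Re s > r` it is given by the (summable)
Dirichlet series. -/
structure IsBarnesZeta (r : ℕ) (a : ℝ) (w : Fin r → ℝ) (Z : ℂ → ℂ) : Prop where
  holomorphic : ∀ s : ℂ, (∀ j : ℕ, 1 ≤ j → j ≤ r → s ≠ j) → DifferentiableAt ℂ Z s
  simple_pole : ∀ j : ℕ, 1 ≤ j → j ≤ r →
    ∃ c : ℂ, Tendsto (fun s : ℂ => (s - j) * Z s) (𝓝[≠] (j : ℂ)) (𝓝 c)
  summable : ∀ s : ℂ, (r : ℝ) < s.re →
    Summable fun m : Fin r → ℕ => ((a + ∑ i, (m i : ℝ) * w i : ℝ) : ℂ) ^ (-s)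
  series : ∀ s : ℂ, (r : ℝ) < s.re → Z s = barnesSeries r a w s

/-- The dimension `d` of the `ℚ`-vector space spanned by the weights. -/
noncomputable def weightDim (r : ℕ) (w : Fin r → ℝ) : ℕ :=
  Module.finrank ℚ (Submodule.span ℚ (Set.range w))

/-- The bound of Q1 with `t^(η + ε)` in place of `t^ε`: for all `ε > 0` and `σ₁` there is `C` with
`|ζ_r(σ + it, a, w)| ≤ C t^(η + ε)` for `r - d/2 ≤ σ ≤ σ₁` and `t ≥ 2`. -/
def StripBound (r : ℕ) (a : ℝ) (w : Fin r → ℝ) (η : ℝ) : Prop :=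
  ∀ Z : ℂ → ℂ, IsBarnesZeta r a w Z → ∀ ε : ℝ, 0 < ε → ∀ σ₁ : ℝ, ∃ C : ℝ, ∀ σ t : ℝ,
    (r : ℝ) - (weightDim r w : ℝ) / 2 ≤ σ → σ ≤ σ₁ → 2 ≤ t →
      ‖Z (σ + t * Complex.I)‖ ≤ C * t ^ (η + ε)

theorem exists_zeta (r : ℕ) (a : ℝ) (w : Fin r → ℝ) (ha : 0 < a) (hw : ∀ i, 0 < w i) :
    ∃ Z : ℂ → ℂ, IsBarnesZeta r a w Z := by
  obtain ⟨c, hc⟩ := Pool.Agent.H131R5.BZ.exists_taylor a hw
  refine ⟨Pool.Agent.H131R5.BZ.FF a w c, ?_, ?_, ?_, ?_⟩
  · exact fun s hs => Pool.Agent.H131R5.BZ.FF_diff ha hw hc hs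
  · exact fun j h1 h2 => Pool.Agent.Y930.Bz.FF_pole ha hw hc j h1 h2
  · exact fun s hs => (Pool.Agent.H131R5.BZ.FF_series ha hw hc hs).summable
  · exact fun s hs => (Pool.Agent.H131R5.BZ.FF_series ha hw hc hs).tsum_eq.symm

theorem zeta_eq {r : ℕ} {a : ℝ} {w : Fin r → ℝ} {c : ℕ → ℂ} (ha : 0 < a) (hw : ∀ i, 0 < w i)
    (hc : Pool.Agent.Y930.Bz.Tay a w c) {Z : ℂ → ℂ} (hZ : IsBarnesZeta r a w Z) (σ : ℝ) {t : ℝ}
    (ht : 0 < t) : Z ((σ : ℂ) + t * Complex.I) =
      Pool.Agent.H131R5.BZ.FF a w c ((σ : ℂ) + t * Complex.I) := by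
  have hE := Pool.Agent.Y930.Bz.eq_FF ha hw hc (fun s hs => hZ.holomorphic s hs)
    (fun s hs => hZ.series s hs)
  have hm : ((σ : ℂ) + t * Complex.I) ∈ Pool.Agent.Y930.Bz.Om r := by
    intro k _ _ h
    have := congrArg Complex.im h
    simp at this
    linarith
  exact hE _ hm

theorem weightDim_eq {d : ℕ} {v : Fin d → ℝ} (hv : LinearIndependent ℚ v) {r : ℕ} {w : Fin r → ℝ}
    (hspan : Submodule.span ℚ (Set.range w) = Submodule.span ℚ (Set.range v)) :
    weightDim r w = d := by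
  unfold weightDim
  rw [hspan, finrank_span_eq_card hv]
  simp

/-- (1) The Barnes multiple zeta function exists (as defined above) for all `r`, `a > 0` and positive
weights `w`. (2) Let `d ≥ 1`. For almost every `v ∈ ℝ^d` all positive weights `w`, in any number `r`,
which span the same `ℚ`-space as `v` have dimension `d`, and for all `a > 0` the bound of Q1 holds for
them with the exponent `d/(2(2d+1)) + ε`. (3) In particular, for `r ≥ 1` this holds for almost all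
positive `w ∈ ℝ^r`, with `d = r`. -/
theorem result :
    (∀ (r : ℕ) (a : ℝ) (w : Fin r → ℝ), 0 < a → (∀ i, 0 < w i) →
      ∃ Z : ℂ → ℂ, IsBarnesZeta r a w Z) ∧
    (∀ d : ℕ, 1 ≤ d → ∀ᵐ v : Fin d → ℝ,
      ∀ (r : ℕ) (w : Fin r → ℝ), (∀ i, 0 < w i) →
        Submodule.span ℚ (Set.range w) = Submodule.span ℚ (Set.range v) →
        weightDim r w = d ∧ ∀ a : ℝ, 0 < a → StripBound r a w ((d : ℝ) / (2 * (2 * d + 1)))) ∧
    (∀ r : ℕ, 1 ≤ r → ∀ᵐ w : Fin r → ℝ, (∀ i, 0 < w i) →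
      weightDim r w = r ∧ ∀ a : ℝ, 0 < a → StripBound r a w ((r : ℝ) / (2 * (2 * r + 1)))) := by
  have h2 : ∀ d : ℕ, 1 ≤ d → ∀ᵐ v : Fin d → ℝ,
      ∀ (r : ℕ) (w : Fin r → ℝ), (∀ i, 0 < w i) →
        Submodule.span ℚ (Set.range w) = Submodule.span ℚ (Set.range v) →
        weightDim r w = d ∧ ∀ a : ℝ, 0 < a → StripBound r a w ((d : ℝ) / (2 * (2 * d + 1))) := by
    intro d hd
    filter_upwards [Pool.Agent.Helper73.SC.main_sub d hd] with v hv r w hw hspan
    have hdim := weightDim_eq hv.1 hspan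
    refine ⟨hdim, fun a ha => ?_⟩
    intro Z hZ ε hε σ₁
    obtain ⟨c, hc⟩ := Pool.Agent.H131R5.BZ.exists_taylor a hw
    obtain ⟨C, hC, h⟩ := hv.2 r w a hw ha hspan c hc ε hε σ₁
    refine ⟨C, fun σ t h1 h2 h3 => ?_⟩
    rw [hdim] at h1
    rw [zeta_eq ha hw hc hZ σ (by linarith)]
    exact h σ t h1 h2 h3
  refine ⟨exists_zeta, h2, fun r hr => ?_⟩
  filter_upwards [h2 r hr] with w hw hpos
  exact hw r w hpos rfl

end Pool.Agent.Results.MP_fcb754_nt.Subconvexity
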